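import Pool.Agent.H29.RT.Defs

/-!
# Orders of zeros modulo `m`, degree between `m` and `2m` (energy method): exact targets
-/

set_option autoImplicit false

open Complex MeasureTheory Set Filter Topology

namespace Pool.Agent.H29.RT

open Pool.Agent.H25.DL Pool.Agent.H25.DP Pool.Agent.H25.MZ Pool.Agent.H23.GLH

/-! ### The identity at clean heights -/

/-- (PHX) the local average of one frequency. -/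
def T_PHX : Prop :=
  ∀ (Y : ℂ → ℂ) (d t₀ : ℝ) (κ : ℂ) (B η C β : ℝ), 0 < β → Phase Y d t₀ → ‖κ‖ = 1 →
    (∀ t : ℝ, t₀ ≤ t →
      ‖Y (1 / 2 + t * I) - κ * cexp ((d * t * Real.log t + B * t + η * Real.log t : ℝ) * I)‖ ≤
        C / t) →
    ∃ C₁ T₀ : ℝ, 0 < C₁ ∧ ∀ T : ℝ, T₀ ≤ T → ∀ u ∈ Icc T (2 * T), ∀ l ξ : ℝ,
      ‖(∫ y in (-Real.log T)..(Real.log T), cexp ((-((u + y) * l) : ℝ) * I) *
          Y (1 / 2 + (u + y : ℝ) * I) * gx β ξ (y * I)) -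
        κ * cexp ((d * u * Real.log u + B * u + η * Real.log u - u * l : ℝ) * I) *
          (Real.exp (-(β ^ 2 * (d * Real.log u + d + B + η / u - l - ξ) ^ 2 / 4)) : ℂ)‖ ≤
        C₁ / T

/-- (KXE) expansion of the right side. -/
def T_KXE : Prop :=
  ∀ (ι : Type) [Fintype ι] (f : ι → Fac) (Y : ℂ → ℂ) (d t₀ : ℝ) (κ : ℂ) (B η C β D : ℝ),
    (∀ l, (f l).r = 1) → 0 < β → 0 < D → D < 1 → Phase Y d t₀ → ‖κ‖ = 1 →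
    (∀ t : ℝ, t₀ ≤ t →
      ‖Y (1 / 2 + t * I) - κ * cexp ((d * t * Real.log t + B * t + η * Real.log t : ℝ) * I)‖ ≤
        C / t) →
    ∃ T₀ : ℝ, ∀ T : ℝ, T₀ ≤ T → ∀ u ∈ Icc T (2 * T), ∀ ξ : ℝ,
      ‖(∑ j ∈ mains f 1 D T, KX f Y β ξ (Real.log T) j u) -
        κ * cexp ((d * u * Real.log u + B * u + η * Real.log u : ℝ) * I) *
          BR f β D T d B η ξ u‖ ≤ T ^ (-(1 / 2) : ℝ)

/-! ### Coefficients -/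

/-- (GRP) the coefficients from the main blocks. -/
def T_GRP : Prop :=
  ∀ (ι : Type) [Fintype ι] (f : ι → Fac) (D : ℝ), (∀ l, (f l).r = 1) → 0 < D →
    (∀ T : ℝ, 1 ≤ T → ∀ k : ℕ, 1 ≤ k → (k : ℝ) ≤ T ^ D → at' f D T k = ac f k) ∧
    (∀ T : ℝ, 1 ≤ T → ∀ z ∈ TU f D T, 1 ≤ ∏ l, z l ∧
      ((∏ l, z l : ℕ) : ℝ) ≤ 2 ^ Fintype.card ι * T ^ D) ∧
    (∀ z : ι → ℕ, (∀ l, 1 ≤ z l) → lam f z = Real.log ((∏ l, z l : ℕ) : ℝ) ∧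
      co f z = cc f z * (((((∏ l, z l : ℕ) : ℝ) ^ (-(1 / 2) : ℝ)) : ℝ) : ℂ)) ∧
    ∀ ε : ℝ, 0 < ε → ∃ C : ℝ, 0 < C ∧ ∀ k : ℕ, 1 ≤ k → ‖ac f k‖ ≤ C * (k : ℝ) ^ ε ∧
      ∀ T : ℝ, 1 ≤ T → ‖at' f D T k‖ ≤ C * (k : ℝ) ^ ε

/-! ### Mean squares -/

/-- (MSL) lower bound for the mean square of the left side. -/
def T_MSL : Prop :=
  ∀ (ι : Type) [Fintype ι] (f : ι → Fac) (β D x₁ x₂ δ : ℝ), (∀ l, (f l).r = 1) → 0 < β →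
    0 < x₁ → x₁ < x₂ → x₂ < D → D < 1 → 0 < δ → ∃ c T₀ : ℝ, 0 < c ∧ ∀ T : ℝ, T₀ ≤ T →
    8 / 35 * T * (Real.sqrt (2 * Real.pi) / β) *
        (En f (T ^ (x₂ - δ)) - En f (T ^ (x₁ + δ))) - T ^ (1 - c) ≤
      ∫ ξ in (x₁ * Real.log T)..(x₂ * Real.log T), ∫ u in (5 * T / 4)..(7 * T / 4),
        om ((u - 5 * T / 4) / (T / 2)) * ‖AL f β D T ξ u‖ ^ 2

/-- (MSU) upper bound for the mean square of the right side. -/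
def T_MSU : Prop :=
  ∀ (ι : Type) [Fintype ι] (f : ι → Fac) (β D d B η x₁ x₂ δ : ℝ), (∀ l, (f l).r = 1) → 0 < β →
    0 < d → 0 < x₁ → x₁ < x₂ → x₂ < d → 0 < δ → d - x₁ + δ < D → D < 1 →
    ∃ c T₀ : ℝ, 0 < c ∧ ∀ T : ℝ, T₀ ≤ T →
      ∫ ξ in (x₁ * Real.log T)..(x₂ * Real.log T), ∫ u in (5 * T / 4)..(7 * T / 4),
        om ((u - 5 * T / 4) / (T / 2)) * ‖BR f β D T d B η ξ u‖ ^ 2 ≤
      8 / 35 * T * (Real.sqrt (2 * Real.pi) / β) *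
        (En f (T ^ (d - x₁ + δ)) - En f (T ^ (d - x₂ - δ))) + T ^ (1 - c)

/-- (BXA) the left side over a small set. -/
def T_BXA : Prop :=
  ∀ (ι : Type) [Fintype ι] (f : ι → Fac) (D ρ₀ ε : ℝ), (∀ l, (f l).r = 1) → 0 < D → D < 1 →
    0 < ρ₀ → ρ₀ ≤ 1 → ρ₀ ≤ 2 - 2 * D → 0 < ε → ∃ c : ℝ, 0 < c ∧ ∀ β : ℝ, 0 < β →
    ∃ T₀ : ℝ, ∀ T : ℝ, T₀ ≤ T → ∀ (ξ : ℝ) (E : Set ℝ), MeasurableSet E → E ⊆ Icc T (2 * T) →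
      volume.real E ≤ T ^ (ρ₀ - ε) → ∫ u in E, ‖AL f β D T ξ u‖ ^ 2 ≤ T ^ (1 - c)

/-! ### The core -/

/-- (COS) the core: many bad heights. -/
def T_COS : Prop :=
  ∀ (ι : Type) [Fintype ι] (f : ι → Fac) (Y : ℂ → ℂ) (d t₀ α ε : ℝ) (m : ℕ),
    (∀ l, (f l).r = 1) → Phase Y d t₀ → 0 < d → d < 2 → 0 < α → α < 1 → RV f α → 0 < ε →
    1 ≤ m → ∃ β₁ : ℝ, 0 < β₁ ∧ ∀ β : ℝ, β₁ ≤ β → ∀ C : ℝ, ∃ T₀ : ℝ, ∀ T : ℝ, T₀ ≤ T →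
      ∀ G : Set ℝ, MeasurableSet G → G ⊆ Icc (5 * T / 4) (7 * T / 4) →
      (∀ u ∈ G, ∃ ω : ℂ, ω ^ m = 1 ∧ Clean f (fun s => ω * Y s) β C T u) →
      T ^ (min 1 (4 - 2 * d) - ε) ≤ volume.real (Icc (5 * T / 4) (7 * T / 4) \ G)

/-- (FIS) many exceptional points. -/
def T_FIS : Prop :=
  ∀ (F : Fam) (m : ℕ) (α ε : ℝ), (∀ i, (F.p i).r = 1) → (∀ j, (F.q j).r = 1) → 1 ≤ m →
    0 < F.d → F.d < 2 * m → 0 < α → α < 1 → RV (rf F m) α → 0 < ε →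
    ∃ T₀ : ℝ, ∀ T : ℝ, T₀ ≤ T → ∃ Z : Finset ℂ,
      T ^ (min 1 (4 - 2 * (F.d / m)) - ε) ≤ Z.card ∧
      ∀ z ∈ Z, T ≤ z.im ∧ z.im ≤ 2 * T ∧ ExcM F m z

/-! ### Regular variation of the energy -/

/-- (KRV) Karamata's Tauberian theorem. -/
def T_KRV : Prop :=
  ∀ (b : ℕ → ℝ) (α : ℝ), 0 < α → (∀ k, 0 ≤ b k) → 0 < b 1 →
    (∀ σ : ℝ, 0 < σ → Summable fun k : ℕ => b k * (k : ℝ) ^ (-(1 + σ) : ℝ)) →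
    (∀ s : ℕ, 1 ≤ s → Tendsto (fun L : ℝ => (∑' k : ℕ, b k * (k : ℝ) ^ (-(1 + s / L) : ℝ)) /
      ∑' k : ℕ, b k * (k : ℝ) ^ (-(1 + 1 / L) : ℝ)) atTop (𝓝 ((s : ℝ) ^ (-α)))) →
    ∀ x : ℝ, 0 < x → Tendsto (fun T : ℝ => (∑ k ∈ Finset.Icc 1 ⌊T ^ x⌋₊, b k / k) /
      ∑ k ∈ Finset.Icc 1 ⌊T⌋₊, b k / k) atTop (𝓝 (x ^ α))

/-- (EUL) the ratio of two values of an Euler product. -/
def T_EUL : Prop :=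
  ∀ (b : ℕ → ℝ) (α : ℝ), (∀ k, 0 ≤ b k) → b 1 = 1 →
    (∀ m n : ℕ, Nat.Coprime m n → b (m * n) = b m * b n) →
    (∀ ε : ℝ, 0 < ε → ∃ C : ℝ, ∀ k : ℕ, 1 ≤ k → b k ≤ C * (k : ℝ) ^ ε) → Mean b α →
    (∀ σ : ℝ, 0 < σ → Summable fun k : ℕ => b k * (k : ℝ) ^ (-(1 + σ) : ℝ)) ∧
    ∀ s : ℕ, 1 ≤ s → Tendsto (fun L : ℝ => (∑' k : ℕ, b k * (k : ℝ) ^ (-(1 + s / L) : ℝ)) /
      ∑' k : ℕ, b k * (k : ℝ) ^ (-(1 + 1 / L) : ℝ)) atTop (𝓝 ((s : ℝ) ^ (-α)))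

/-- (ACM) multiplicativity of the coefficients. -/
def T_ACM : Prop :=
  ∀ (ι : Type) [Fintype ι] (f : ι → Fac),
    (∀ l, ∀ m n : ℕ, Nat.Coprime m n → (f l).c (m * n) = (f l).c m * (f l).c n) →
    ac f 1 = 1 ∧ (∀ m n : ℕ, Nat.Coprime m n → ac f (m * n) = ac f m * ac f n) ∧
    ∀ p : ℕ, p.Prime → ac f p = ∑ l, (f l).c p * (p : ℂ) ^ (-((f l).τ * I) : ℂ)

/-- (RFM) the coefficients of the roots. -/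
def T_RFM : Prop :=
  ∀ (F : Fam) (m : ℕ), 1 ≤ m →
    (∀ l, ∀ a b : ℕ, Nat.Coprime a b → (rf F m l).c (a * b) = (rf F m l).c a * (rf F m l).c b) ∧
    ∀ p : ℕ, p.Prime → ∑ l, (rf F m l).c p * (p : ℂ) ^ (-((rf F m l).τ * I) : ℂ) =
      (∑ i, (p : ℂ) ^ (-((F.p i).τ * I) : ℂ) * ∑ k, (F.p i).L.h k p -
        ∑ j, (p : ℂ) ^ (-((F.q j).τ * I) : ℂ) * ∑ k, (F.q j).L.h k p) / m

/-- (RVF) the energy of a root is regularly varying. -/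
def T_RVF : Prop :=
  ∀ (F : Fam) (m : ℕ) (α : ℝ), 1 ≤ m → (∀ i, (F.p i).r = 1) → (∀ j, (F.q j).r = 1) → 0 < α →
    Mean (fun p => ‖(∑ i, (p : ℂ) ^ (-((F.p i).τ * I) : ℂ) * ∑ k, (F.p i).L.h k p -
        ∑ j, (p : ℂ) ^ (-((F.q j).τ * I) : ℂ) * ∑ k, (F.q j).L.h k p) / m‖ ^ 2) α →
    RV (rf F m) α

/-! ### Dirichlet characters -/

open Classical in
/-- (LDM) two characters and a shift. -/
def T_LDM : Prop :=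
  ∀ (ψ χ : PrimChar) (t : ℝ) (s : ℕ), 1 ≤ s →
    Tendsto (fun L : ℝ => ∑' p : Nat.Primes, chz ψ p * (starRingEnd ℂ) (chz χ p) *
      (p : ℂ) ^ (-(t * I) : ℂ) *
        (((p : ℝ) ^ (-(1 + s / L) : ℝ) - (p : ℝ) ^ (-(1 + 1 / L) : ℝ) : ℝ) : ℂ)) atTop
      (𝓝 (if ψ = χ ∧ t = 0 then -(Real.log s : ℂ) else 0))

/-- (MND) the mean for combinations of characters. -/
def T_MND : Prop :=
  ∀ (k : ℕ) (χ : Fin k → PrimChar) (t : Fin k → ℝ) (c : Fin k → ℤ) (m : ℕ), 1 ≤ m →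
    (∀ i j, χ i = χ j → t i = t j → i = j) →
    Mean (fun p => ‖(∑ i, (c i : ℂ) * chz (χ i) p * (p : ℂ) ^ (-(t i * I) : ℂ)) / m‖ ^ 2)
      ((∑ i, (c i : ℝ) ^ 2) / m ^ 2)

/-- (FDR) the theorem for Dirichlet `L`-functions. -/
def T_FDR : Prop :=
  ∀ (k : ℕ) (χ : Fin k → PrimChar) (τ : Fin k → ℝ) (c : Fin k → ℤ) (m : ℕ) (ε : ℝ),
    (∀ i j, χ i = χ j → τ i = τ j → i = j) → 0 < ∑ i, c i → ∑ i, c i < 2 * m →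
    ∑ i, c i ^ 2 < (m : ℤ) ^ 2 → 0 < ε →
    ∃ T₀ : ℝ, ∀ T : ℝ, T₀ ≤ T → ∃ Z : Finset ℂ,
      T ^ (min 1 (4 - 2 * ((∑ i, (c i : ℝ)) / m)) - ε) ≤ Z.card ∧
      ∀ z ∈ Z, T ≤ z.im ∧ z.im ≤ 2 * T ∧
        ¬ ∃ j : ℕ, ∑ i, c i * (meromorphicOrderAt (χ i).L (z + τ i * I)).untop₀ = (m : ℤ) * j

/-! ### Artin `L`-functions -/

/-- (DZR) prime ideals of degree one. -/
def T_DZR : Prop :=
  ∀ (K : Type) [Field K] [NumberField K], Mean (fun p => (Pool.Agent.H25.HK.spf K p 1 : ℝ)) 1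

/-- the norm of the character of `R` -/
noncomputable def ip (R : ArtinRep) : ℝ :=
  (∑ᶠ g : R.K ≃ₐ[ℚ] R.K, ‖LinearMap.trace ℂ R.V (R.rho g)‖ ^ 2) / Nat.card (R.K ≃ₐ[ℚ] R.K)

/-- (MNA) the mean for an Artin representation with rational character. -/
def T_MNA : Prop :=
  ∀ (R : ArtinRep) (m : ℕ) (w : ℕ → ℝ), 1 ≤ m → Pool.Agent.H25.HK.Rat R →
    (∀ p : Nat.Primes, w p = ‖LinearMap.trace ℂ R.V (R.fr p) / m‖ ^ 2) →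
    Mean w (ip R / m ^ 2)

/-- (FAR) the theorem for Artin `L`-functions. -/
def T_FAR : Prop :=
  ∀ (R : ArtinRep) (Λ : ℂ → ℂ) (m : ℕ) (ε : ℝ), Pool.Agent.H25.HK.Rat R →
    Pool.Agent.H25.HK.IsArtin R Λ → 1 ≤ R.dim → R.dim < 2 * m → ip R < (m : ℝ) ^ 2 → 0 < ε →
    ∃ T₀ : ℝ, ∀ T : ℝ, T₀ ≤ T → ∃ Z : Finset ℂ,
      T ^ (min 1 (4 - 2 * ((R.dim : ℝ) / m)) - ε) ≤ Z.card ∧
      ∀ z ∈ Z, T ≤ z.im ∧ z.im ≤ 2 * T ∧ ∀ j : ℕ, meromorphicOrderAt Λ z ≠ ((m * j : ℕ) : ℤ)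

end Pool.Agent.H29.RT
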