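import Pool.Agent.H25.DP.Targets3
import Pool.Agent.H25.MZ.Targets

/-!
# Orders of zeros modulo `m`, degree between `m` and `2m` (energy method): definitions
-/

set_option autoImplicit false

open Complex MeasureTheory Set Filter Topology

namespace Pool.Agent.H29.RT

open Pool.Agent.H25.DL Pool.Agent.H25.DP Pool.Agent.H23.GLH

variable {ι : Type} [Fintype ι]

/-- the product of the coefficients of a tuple (without the factor `k^{-1/2}`) -/
noncomputable def cc (f : ι → Fac) (z : ι → ℕ) : ℂ :=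
  ∏ l, (f l).c (z l) * ((z l : ℕ) : ℂ) ^ (-((f l).τ * I) : ℂ)

open Classical in
/-- the coefficient at `k` of the product of the series (for dilations `1`) -/
noncomputable def ac (f : ι → Fac) (k : ℕ) : ℂ :=
  ∑ z ∈ (Fintype.piFinset fun _ : ι => k.divisors).filter (fun z => ∏ l, z l = k), cc f z

open Classical in
/-- the part of the coefficient at `k` that comes from the main blocks -/
noncomputable def at' (f : ι → Fac) (D T : ℝ) (k : ℕ) : ℂ :=
  ∑ z ∈ (TU f D T).filter (fun z => ∏ l, z l = k), cc f z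

/-- the energy -/
noncomputable def En (f : ι → Fac) (y : ℝ) : ℝ := ∑ k ∈ Finset.Icc 1 ⌊y⌋₊, ‖ac f k‖ ^ 2 / k

/-- the energy is regularly varying of exponent `α` in `log y` -/
def RV (f : ι → Fac) (α : ℝ) : Prop :=
  ∀ x : ℝ, 0 < x → Tendsto (fun T : ℝ => En f (T ^ x) / En f T) atTop (𝓝 (x ^ α))

/-- the left side -/
noncomputable def AL (f : ι → Fac) (β D T ξ u : ℝ) : ℂ :=
  ∑ z ∈ TU f D T, (starRingEnd ℂ) (co f z) * cexp ((u * lam f z : ℝ) * I) *
    (Real.exp (-(β ^ 2 * (lam f z - ξ) ^ 2 / 4)) : ℂ)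

/-- the right side without its unimodular factor -/
noncomputable def BR (f : ι → Fac) (β D T d B η ξ u : ℝ) : ℂ :=
  ∑ z ∈ TU f D T, co f z * cexp ((-(u * lam f z) : ℝ) * I) *
    (Real.exp (-(β ^ 2 * (d * Real.log u + d + B + η / u - lam f z - ξ) ^ 2 / 4)) : ℂ)

/-- the mean of a function on the primes is `α` (in a weak sense) -/
def Mean (w : ℕ → ℝ) (α : ℝ) : Prop :=
  ∀ s : ℕ, 1 ≤ s → Tendsto (fun L : ℝ => ∑' p : Nat.Primes,
    w p * ((p : ℝ) ^ (-(1 + s / L) : ℝ) - (p : ℝ) ^ (-(1 + 1 / L) : ℝ))) atTop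
    (𝓝 (-(α * Real.log s)))

end Pool.Agent.H29.RT
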